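import Pool.Agent.Run7.h336.FW.Stm

/-! # The sharp lower bound for the completed function on the line `Re s = 9/2` -/

set_option autoImplicit false
set_option linter.unusedSectionVars false

open Complex Filter Topology Set MeasureTheory Metric
open scoped ComplexConjugate

namespace Pool.Agent.Y23.G.FW

/-- growth along a segment, from the real part of the logarithmic derivative -/
lemma seg_re {F : ℂ → ℂ} {s v : ℂ} {K : ℝ}
    (hd : ∀ τ ∈ Icc (0 : ℝ) 1, DifferentiableAt ℂ F (s + τ * v))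
    (h0 : ∀ τ ∈ Icc (0 : ℝ) 1, F (s + τ * v) ≠ 0)
    (hK : ∀ τ ∈ Icc (0 : ℝ) 1, (logDeriv F (s + τ * v) * v).re ≤ K) :
    ‖F (s + v)‖ ≤ ‖F s‖ * Real.exp K := by
  set f : ℝ → ℂ := fun τ => F (s + (τ : ℂ) * v) with hf
  have hder : ∀ τ ∈ Icc (0 : ℝ) 1, HasDerivAt f (deriv F (s + τ * v) * v) τ := by
    intro τ hτ
    have h1 : HasDerivAt (fun x : ℝ => s + (x : ℂ) * v) v τ := by
      have := ((hasDerivAt_id (τ : ℝ)).ofReal_comp.mul_const v).const_add s
      simpa using this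
    exact HasDerivAt.comp_of_eq (h₂ := F) τ (hd τ hτ).hasDerivAt h1 rfl
  set q : ℝ → ℝ := fun τ => ‖f τ‖ ^ 2 * Real.exp (-(2 * K) * τ) with hq
  have hqd : ∀ τ ∈ Icc (0 : ℝ) 1, HasDerivAt q (2 * inner ℝ (f τ) (deriv F (s + τ * v) * v) * Real.exp (-(2 * K) * τ) +
      ‖f τ‖ ^ 2 * (Real.exp (-(2 * K) * τ) * -(2 * K))) τ := by
    intro τ hτ
    have h1 := (hder τ hτ).norm_sq
    have h2 : HasDerivAt (fun x : ℝ => Real.exp (-(2 * K) * x)) (Real.exp (-(2 * K) * τ) * -(2 * K)) τ := by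
      have h3 : HasDerivAt (fun x : ℝ => -(2 * K) * x) (-(2 * K)) τ := by
        simpa using (hasDerivAt_id τ).const_mul (-(2 * K))
      exact h3.exp
    exact h1.mul h2
  have hanti : AntitoneOn q (Icc 0 1) := by
    refine antitoneOn_of_deriv_nonpos (convex_Icc 0 1) (fun τ hτ => (hqd τ hτ).continuousAt.continuousWithinAt)
      (fun τ hτ => (hqd τ (interior_subset hτ)).differentiableAt.differentiableWithinAt) (fun τ hτ => ?_)
    have hτ' : τ ∈ Icc (0 : ℝ) 1 := interior_subset hτ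
    rw [(hqd τ hτ').deriv]
    have hne := h0 τ hτ'
    have e : inner ℝ (f τ) (deriv F (s + τ * v) * v) = ‖f τ‖ ^ 2 * (logDeriv F (s + τ * v) * v).re := by
      have e1 : deriv F (s + τ * v) * v = f τ * (logDeriv F (s + τ * v) * v) := by
        rw [logDeriv_apply, hf]
        field_simp
      rw [e1, Complex.inner]
      have e2 : f τ * (logDeriv F (s + τ * v) * v) * conj (f τ) =
          ((‖f τ‖ ^ 2 : ℝ) : ℂ) * (logDeriv F (s + τ * v) * v) := by
        rw [mul_right_comm, Complex.mul_conj, Complex.normSq_eq_norm_sq]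
      rw [e2, Complex.re_ofReal_mul]
    rw [e]
    have h1 := hK τ hτ'
    have h2 : 0 ≤ ‖f τ‖ ^ 2 * Real.exp (-(2 * K) * τ) := by positivity
    nlinarith
  have h1 := hanti (left_mem_Icc.2 zero_le_one) (right_mem_Icc.2 zero_le_one) zero_le_one
  have h2 : ‖f 1‖ ^ 2 * Real.exp (-(2 * K) * 1) ≤ ‖f 0‖ ^ 2 * Real.exp (-(2 * K) * 0) := h1
  have ef1 : f 1 = F (s + v) := by rw [hf]; simp
  have ef0 : f 0 = F s := by rw [hf]; simp
  rw [ef1, ef0, mul_zero, Real.exp_zero, mul_one, mul_one] at h2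
  have h3 : ‖F (s + v)‖ ^ 2 ≤ (‖F s‖ * Real.exp K) ^ 2 := by
    have e : (‖F s‖ * Real.exp K) ^ 2 = ‖F s‖ ^ 2 * Real.exp (2 * K) := by
      rw [mul_pow, ← Real.exp_nat_mul]
      push_cast
      rfl
    rw [e]
    have e2 : Real.exp (-(2 * K)) * Real.exp (2 * K) = 1 := by rw [← Real.exp_add]; simp
    calc ‖F (s + v)‖ ^ 2 = ‖F (s + v)‖ ^ 2 * Real.exp (-(2 * K)) * Real.exp (2 * K) := by
          rw [mul_assoc, e2, mul_one]
      _ ≤ _ := mul_le_mul_of_nonneg_right h2 (Real.exp_pos _).le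
  exact (abs_le_of_sq_le_sq' h3 (by positivity)).2

/-- the completed function is not small on the line `Re s = 9/2` -/
theorem t_CLV2 [L : LFun] : ∃ C : ℝ, 1 ≤ C ∧ ∀ T : ℝ, Real.exp (-(C * (1 + |T|))) ≤ ‖L.X (ctr T)‖ := by
  have h := ul (L := L)
  have hm : (0 : ℝ) ≤ L.m := Nat.cast_nonneg _
  have hB := Pool.Agent.W355.UN.Bst_nonneg (1 / 2)
  set K : ℝ := 6 * L.m + L.m * Pool.Agent.W355.UN.Bst (1 / 2) with hK
  have hK0 : 0 ≤ K := by positivity
  have him : ∀ s : ℂ, 2 ≤ s.re → |(logDeriv L.X s).im| ≤ K := by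
    intro s hs
    rw [h.logD (by linarith), Complex.add_im]
    have b1 := h.gp.im s (by linarith)
    have b2 := h.bd (1 / 2) (by norm_num) (by norm_num) s (by linarith)
    have b3 := Complex.abs_im_le_norm (logDeriv (fun s => (s * (s - 1)) ^ L.r * LSeries L.b s) s)
    refine (abs_add_le _ _).trans ?_
    rw [hK]
    linarith
  have hx0 : 0 < ‖L.X (ctr 0)‖ := norm_pos_iff.2 (ctr_ne 0)
  set k : ℝ := |Real.log ‖L.X (ctr 0)‖| with hk
  have hk0 : 0 ≤ k := abs_nonneg _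
  refine ⟨K + k + 1, by linarith, fun T => ?_⟩
  have hT := abs_nonneg T
  have hre : ∀ τ : ℝ, (ctr T + τ * (((-T : ℝ) : ℂ) * I)).re = 9 / 2 := fun τ => by
    rw [add_re, Complex.re_ofReal_mul, Complex.re_ofReal_mul, Complex.I_re]
    show (9 / 2 : ℝ) + τ * (-T * 0) = 9 / 2
    ring
  have e1 : ctr T + ((-T : ℝ) : ℂ) * I = ctr 0 := by
    unfold ctr; apply Complex.ext <;> simp
  have hs := seg_re (F := L.X) (s := ctr T) (v := ((-T : ℝ) : ℂ) * I) (K := K * |T|) (fun τ _ => Xd _)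
    (fun τ hτ => X_ne (by rw [hre]; norm_num)) (fun τ hτ => by
      have h1 := him (ctr T + τ * (((-T : ℝ) : ℂ) * I)) (by rw [hre]; norm_num)
      set D : ℂ := logDeriv L.X (ctr T + τ * (((-T : ℝ) : ℂ) * I)) with hD
      have e : (D * (((-T : ℝ) : ℂ) * I)).re = T * D.im := by
        rw [mul_left_comm, Complex.re_ofReal_mul, Complex.mul_I_re]
        ring
      rw [e]
      calc T * D.im ≤ |T * D.im| := le_abs_self _
        _ = |D.im| * |T| := by rw [abs_mul, mul_comm]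
        _ ≤ K * |T| := mul_le_mul_of_nonneg_right h1 hT)
  rw [e1] at hs
  -- the lower bound
  have hE : 0 < Real.exp (K * |T|) := Real.exp_pos _
  have h1 : Real.exp (-k) ≤ ‖L.X (ctr 0)‖ := by
    rw [← Real.le_log_iff_exp_le hx0, hk]
    exact neg_abs_le _
  have h2 : Real.exp (-k) * Real.exp (-(K * |T|)) ≤ ‖L.X (ctr T)‖ := by
    rw [Real.exp_neg (K * |T|), ← div_eq_mul_inv, div_le_iff₀ hE]
    exact h1.trans hs
  refine le_trans ?_ h2
  rw [← Real.exp_add]
  apply Real.exp_le_exp.2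
  have h3 : 0 ≤ k * |T| := by positivity
  nlinarith

end Pool.Agent.Y23.G.FW
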