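import Pool.Agent.Run7.h336.FW.Stm

/-! # A cluster of zeros off the line makes the form negative -/

set_option autoImplicit false
set_option linter.unusedSectionVars false
set_option maxHeartbeats 2000000

open Complex Filter Topology Set MeasureTheory Metric
open scoped ComplexConjugate

namespace Pool.Agent.Y23.G.FW

/-- the algebra of the cross term -/
lemma cross0 (P R θ : ℂ) (hθ : θ * conj θ = 1) :
    (P + θ * conj R) * conj (R + θ * conj P) = 2 * (P * conj R) + conj θ * P ^ 2 + θ * conj R ^ 2 := by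
  rw [map_add, map_mul, Complex.conj_conj]
  linear_combination (P * conj R) * hθ

/-- the square of a number close to `P0` points in the direction of `P0 ^ 2` -/
lemma near_sq {P P0 θ : ℂ} (hθn : ‖θ‖ = 1) (hθ : conj θ * P0 ^ 2 = -((‖P0‖ ^ 2 : ℝ) : ℂ))
    (h : ‖P - P0‖ ≤ ‖P0‖ / 8) : (conj θ * P ^ 2).re ≤ -(‖P0‖ ^ 2 / 2) := by
  have e : conj θ * P ^ 2 = conj θ * P0 ^ 2 + conj θ * ((P - P0) * (2 * P0 + (P - P0))) := by ring
  have hP0 : 0 ≤ ‖P0‖ := norm_nonneg _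
  have h1 : ‖conj θ * ((P - P0) * (2 * P0 + (P - P0)))‖ ≤ ‖P0‖ / 8 * (2 * ‖P0‖ + ‖P0‖ / 8) := by
    rw [norm_mul, Complex.norm_conj, hθn, one_mul, norm_mul]
    refine mul_le_mul h ?_ (norm_nonneg _) (by positivity)
    refine (norm_add_le _ _).trans ?_
    rw [norm_mul]
    have : ‖(2 : ℂ)‖ = 2 := by norm_num
    rw [this]
    linarith
  have h2 := (Complex.re_le_norm (conj θ * ((P - P0) * (2 * P0 + (P - P0))))).trans h1
  rw [e, hθ, Complex.add_re, Complex.neg_re, Complex.ofReal_re]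
  nlinarith [sq_nonneg ‖P0‖]

theorem t_OFC [L : LFun] : S_OFC := by
  intro w0 r a M δ g hw0z ha hr hrw hM hδ0 hδ1 hg hgne hgM hgc hgz
  have hσ : 0 < w0.re := by linarith
  set ρ0 : Zt := ⟨1 / 2 + w0, hw0z⟩ with hρ0
  have hw0 : w0 = (ρ0 : ℂ) - 1 / 2 := by rw [hρ0]; simp
  have hw0r : |w0.re| ≤ 1 := by rw [hw0]; exact half_re ρ0
  have hw0l : w0.re ≤ 1 := (le_abs_self _).trans hw0r
  have hr2 : r ≤ 1 / 2 := by linarith
  set Z : ℝ := ∑' ρ : Zt, (mu ρ : ℝ) * (1 / (1 + ((ρ : ℂ).im - w0.im) ^ 2)) with hZ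
  have hM0 : 0 < M := by linarith
  have hδM : δ ≤ M := hδ1.trans hM
  have hgp : 0 < ‖TT g w0‖ := norm_pos_iff.2 hgne
  -- the bounds at the zeros
  have hd1 : ∀ ρ : Zt, 1 / (1 + ((ρ : ℂ).im - w0.im) ^ 2) ≤ 1 := by
    intro ρ
    rw [div_le_one (by positivity)]
    nlinarith [sq_nonneg ((ρ : ℂ).im - w0.im)]
  have hsmall : ∀ w : ℂ, |w.re| ≤ 1 → L.X (1 / 2 + w) = 0 → r < ‖w - w0‖ →
      ‖TT g w‖ ≤ δ * (1 / (1 + (w.im - w0.im) ^ 2)) := by
    intro w h1 h2 h3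
    rw [mul_one_div]
    exact hgz w h1 h2 h3
  have hcl : ∀ w : ℂ, |w.re| ≤ 1 → L.X (1 / 2 + w) = 0 → ‖w - w0‖ ≤ r → ‖TT g w‖ ≤ 2 * M := by
    intro w h1 h2 h3
    have h4 := hgc w h1 h2 h3
    have h5 : ‖TT g w‖ ≤ ‖TT g w0‖ + ‖TT g w - TT g w0‖ := by
      have := norm_add_le (TT g w0) (TT g w - TT g w0)
      rwa [add_sub_cancel] at this
    linarith
  have hall : ∀ w : ℂ, |w.re| ≤ 1 → L.X (1 / 2 + w) = 0 →
      ‖TT g w‖ ≤ 4 * M * (1 / (1 + (w.im - w0.im) ^ 2)) := by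
    intro w h1 h2
    by_cases h3 : ‖w - w0‖ ≤ r
    · have h4 := hcl w h1 h2 h3
      have h5 : |w.im - w0.im| ≤ 1 / 2 := by
        have := Complex.abs_im_le_norm (w - w0)
        rw [Complex.sub_im] at this
        linarith
      have h6 : (w.im - w0.im) ^ 2 ≤ 1 := by
        have := abs_le.1 h5
        nlinarith [this.1, this.2]
      have h7 : (1 / 2 : ℝ) ≤ 1 / (1 + (w.im - w0.im) ^ 2) :=
        one_div_le_one_div_of_le (by positivity) (by linarith)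
      nlinarith
    · rw [not_le] at h3
      exact (hsmall w h1 h2 h3).trans (mul_le_mul_of_nonneg_right (by linarith) (by positivity))
  have hz1 : ∀ ρ : Zt, L.X (1 / 2 + ((ρ : ℂ) - 1 / 2)) = 0 := fun ρ => by
    rw [add_sub_cancel]; exact ρ.2
  have him1 : ∀ ρ : Zt, ((ρ : ℂ) - 1 / 2).im = (ρ : ℂ).im := fun ρ => by simp
  have hre2 : ∀ ρ : Zt, |(-conj ((ρ : ℂ) - 1 / 2)).re| ≤ 1 := fun ρ => by
    rw [Complex.neg_re, Complex.conj_re, abs_neg]; exact half_re ρ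
  have hz2 : ∀ ρ : Zt, L.X (1 / 2 + -conj ((ρ : ℂ) - 1 / 2)) = 0 := fun ρ => by
    rw [← rfZ_sub]
    exact hz1 (rfZ ρ)
  have him2 : ∀ ρ : Zt, (-conj ((ρ : ℂ) - 1 / 2)).im = (ρ : ℂ).im := fun ρ => by simp
  -- the number θ
  set P0 : ℂ := TT g w0 with hP0
  have hP0n : 0 < ‖P0‖ := hgp
  set v : ℂ := P0 ^ 2 with hv
  have hvn : ‖v‖ = ‖P0‖ ^ 2 := by rw [hv, norm_pow]
  have hv0 : 0 < ‖v‖ := by rw [hvn]; positivity
  have hvne : (‖v‖ : ℂ) ≠ 0 := by exact_mod_cast hv0.ne'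
  set θ : ℂ := -(v / ‖v‖) with hθd
  have hθv : conj θ * v = -(‖v‖ : ℂ) := by
    rw [hθd, map_neg, map_div₀, Complex.conj_ofReal, neg_mul, div_mul_eq_mul_div, mul_comm, Complex.mul_conj,
      Complex.normSq_eq_norm_sq, neg_inj, div_eq_iff hvne]
    push_cast
    ring
  have hθ1 : θ * conj θ = 1 := by
    rw [hθd, map_neg, map_div₀, Complex.conj_ofReal, neg_mul_neg, div_mul_div_comm, Complex.mul_conj,
      Complex.normSq_eq_norm_sq, div_eq_one_iff_eq (mul_ne_zero hvne hvne)]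
    push_cast
    ring
  have hθn : ‖θ‖ = 1 := by
    have h1 : ‖θ‖ * ‖θ‖ = 1 := by
      have := congrArg norm hθ1
      rwa [norm_mul, Complex.norm_conj, norm_one] at this
    nlinarith [norm_nonneg θ]
  have hθv' : conj θ * P0 ^ 2 = -((‖P0‖ ^ 2 : ℝ) : ℂ) := by
    rw [← hvn]; exact hθv
  -- the function
  set h : ℝ → ℂ := fun u => g u + θ * sh' g u with hh
  have hF2 : Fa a (fun u => θ * sh' g u) := (Fa_sh hg).smul θ
  have hF : Fa a h := hg.add hF2
  have hT : ∀ w, TT h w = TT g w + θ * conj (TT g (-conj w)) := by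
    intro w
    simp only [hh]
    rw [TT_add hg hF2, TT_smul, TT_sh]
  have hdomb : ∀ ρ : Zt, (mu ρ : ℝ) * ‖TT h ((ρ : ℂ) - 1 / 2)‖ ^ 2 ≤
      (8 * M) ^ 2 * ((mu ρ : ℝ) * (1 / (1 + ((ρ : ℂ).im - w0.im) ^ 2))) := by
    intro ρ
    have h1 := hall _ (half_re ρ) (hz1 ρ)
    have h2 := hall _ (hre2 ρ) (hz2 ρ)
    rw [him1] at h1
    rw [him2] at h2
    set d : ℝ := 1 / (1 + ((ρ : ℂ).im - w0.im) ^ 2) with hd
    have hd0 : 0 ≤ d := by positivity
    have h3 : ‖TT h ((ρ : ℂ) - 1 / 2)‖ ≤ 8 * M * d := by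
      rw [hT]
      refine (norm_add_le _ _).trans ?_
      rw [norm_mul, hθn, one_mul, Complex.norm_conj]
      linarith
    have h4 : ‖TT h ((ρ : ℂ) - 1 / 2)‖ ^ 2 ≤ (8 * M) ^ 2 * d := by
      calc ‖TT h ((ρ : ℂ) - 1 / 2)‖ ^ 2 ≤ (8 * M * d) ^ 2 := pow_le_pow_left₀ (norm_nonneg _) h3 2
        _ = (8 * M) ^ 2 * (d * d) := by ring
        _ ≤ (8 * M) ^ 2 * (1 * d) := by
            refine mul_le_mul_of_nonneg_left (mul_le_mul_of_nonneg_right (hd1 ρ) hd0) (by positivity)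
        _ = _ := by ring
    calc _ ≤ (mu ρ : ℝ) * ((8 * M) ^ 2 * d) := mul_le_mul_of_nonneg_left h4 (Nat.cast_nonneg _)
      _ = _ := by ring
  have hdom : Dom h := Summable.of_nonneg_of_le (fun ρ => by positivity) hdomb ((zsummable w0.im).mul_left _)
  have hHd : Hd a h := (Hd_iff ha h).2 ⟨hF, hdom⟩
  -- the mass
  have hN : N2 h ≤ 4 * N2 g := by
    have h1 := N2_add_le hg hF2
    rw [N2_smul, N2_sh, hθn] at h1
    have h2 : N2 h ≤ 2 * N2 g + 2 * (1 ^ 2 * N2 g) := h1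
    linarith
  -- the form
  have hterm : ∀ ρ : Zt, (mu ρ : ℝ) * (GG h h ((ρ : ℂ) - 1 / 2)).re ≤
      8 * M * δ * ((mu ρ : ℝ) * (1 / (1 + ((ρ : ℂ).im - w0.im) ^ 2))) - (if ρ = ρ0 then ‖P0‖ ^ 2 / 2 else 0) := by
    intro ρ
    set z : ℂ := (ρ : ℂ) - 1 / 2 with hz
    have hzr : |z.re| ≤ 1 := half_re ρ
    have hGG : GG h h z = 2 * (TT g z * conj (TT g (-conj z))) + conj θ * TT g z ^ 2 +
        θ * conj (TT g (-conj z)) ^ 2 := by
      have e1 : -conj (-conj z) = z := by rw [map_neg, Complex.conj_conj, neg_neg]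
      unfold GG
      rw [hT, hT, e1]
      exact cross0 (TT g z) (TT g (-conj z)) θ hθ1
    set P : ℂ := TT g z with hP
    set R : ℂ := TT g (-conj z) with hR
    set d : ℝ := 1 / (1 + ((ρ : ℂ).im - w0.im) ^ 2) with hd
    have hd0 : 0 ≤ d := by positivity
    have hdd : d ≤ 1 := hd1 ρ
    have hmu : (1 : ℝ) ≤ mu ρ := by
      have : 1 ≤ mu ρ := ZD.mpos _ ρ.2
      exact_mod_cast this
    have hPs : r < ‖z - w0‖ → ‖P‖ ≤ δ * d := fun hne => by
      have := hsmall z hzr (hz1 ρ) hne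
      rwa [him1 ρ] at this
    have hRs : r < ‖-conj z - w0‖ → ‖R‖ ≤ δ * d := fun hne => by
      have := hsmall (-conj z) (hre2 ρ) (hz2 ρ) hne
      rwa [him2 ρ] at this
    have hδd : δ * d ≤ δ := by nlinarith
    have hδd0 : 0 ≤ δ * d := by positivity
    have hMδd : 0 ≤ M * (δ * d) := by positivity
    have hP2 : ‖P‖ ≤ 2 * M := by
      by_cases h3 : ‖z - w0‖ ≤ r
      · exact hcl z hzr (hz1 ρ) h3
      · have := hPs (not_le.1 h3)
        linarith
    have hR2 : ‖R‖ ≤ 2 * M := by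
      by_cases h3 : ‖-conj z - w0‖ ≤ r
      · exact hcl (-conj z) (hre2 ρ) (hz2 ρ) h3
      · have := hRs (not_le.1 h3)
        linarith
    have t1 : (2 * (P * conj R)).re ≤ 2 * (‖P‖ * ‖R‖) := by
      refine (Complex.re_le_norm _).trans ?_
      rw [norm_mul, norm_mul, Complex.norm_conj]
      simp
    have t2 : (conj θ * P ^ 2).re ≤ ‖P‖ ^ 2 := by
      refine (Complex.re_le_norm _).trans ?_
      rw [norm_mul, Complex.norm_conj, hθn, one_mul, norm_pow]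
    have t3 : (θ * conj R ^ 2).re ≤ ‖R‖ ^ 2 := by
      refine (Complex.re_le_norm _).trans ?_
      rw [norm_mul, hθn, one_mul, norm_pow, Complex.norm_conj]
    have hsq : ∀ y : ℝ, 0 ≤ y → y ≤ δ * d → y ^ 2 ≤ M * (δ * d) := by
      intro y hy0 hy
      rw [sq]
      exact mul_le_mul (hy.trans (hδd.trans hδM)) hy hy0 hM0.le
    have hpr : ∀ y y' : ℝ, 0 ≤ y → y ≤ 2 * M → 0 ≤ y' → y' ≤ δ * d → 2 * (y * y') ≤ 4 * (M * (δ * d)) := by
      intro y y' hy0 hy hy'0 hy'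
      have h1 : y * y' ≤ 2 * M * (δ * d) := mul_le_mul hy hy' hy'0 (by linarith)
      linarith
    -- the cluster and its reflection are disjoint
    have hdisj : ‖z - w0‖ ≤ r → r < ‖-conj z - w0‖ := by
      intro h3
      have h4 := Complex.abs_re_le_norm (z - w0)
      rw [Complex.sub_re] at h4
      have h5 := (abs_le.1 (h4.trans h3)).1
      have h6 := Complex.abs_re_le_norm (-conj z - w0)
      rw [Complex.sub_re, Complex.neg_re, Complex.conj_re] at h6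
      have h7 := neg_abs_le (-z.re - w0.re)
      linarith
    rw [hGG, Complex.add_re, Complex.add_re]
    by_cases hzc : ‖z - w0‖ ≤ r
    · -- a zero of the cluster
      have hRs' := hRs (hdisj hzc)
      have t2' : (conj θ * P ^ 2).re ≤ -(‖P0‖ ^ 2 / 2) := near_sq hθn hθv' (hgc z hzr (hz1 ρ) hzc)
      have k1 := hpr ‖P‖ ‖R‖ (norm_nonneg _) hP2 (norm_nonneg _) hRs'
      have k2 := hsq ‖R‖ (norm_nonneg _) hRs'
      have k3 : (2 * (P * conj R)).re + (conj θ * P ^ 2).re + (θ * conj R ^ 2).re ≤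
          8 * (M * (δ * d)) - ‖P0‖ ^ 2 / 2 := by linarith
      have hP2' : (0 : ℝ) ≤ ‖P0‖ ^ 2 / 2 := by positivity
      have hif : (if ρ = ρ0 then ‖P0‖ ^ 2 / 2 else 0) ≤ ‖P0‖ ^ 2 / 2 := by
        split_ifs
        · exact le_rfl
        · exact hP2'
      calc (mu ρ : ℝ) * ((2 * (P * conj R)).re + (conj θ * P ^ 2).re + (θ * conj R ^ 2).re)
          ≤ (mu ρ : ℝ) * (8 * (M * (δ * d)) - ‖P0‖ ^ 2 / 2) := mul_le_mul_of_nonneg_left k3 (Nat.cast_nonneg _)
        _ ≤ _ := by nlinarith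
    · rw [not_le] at hzc
      have hρ : ρ ≠ ρ0 := by
        intro h1
        rw [hz, h1, ← hw0, sub_self, norm_zero] at hzc
        linarith
      rw [if_neg hρ, sub_zero]
      have hPs' := hPs hzc
      have k3 : (2 * (P * conj R)).re + (conj θ * P ^ 2).re + (θ * conj R ^ 2).re ≤ 8 * (M * (δ * d)) := by
        have k2 := hsq ‖P‖ (norm_nonneg _) hPs'
        have k1 := hpr ‖R‖ ‖P‖ (norm_nonneg _) hR2 (norm_nonneg _) hPs'
        rw [mul_comm ‖R‖] at k1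
        by_cases hrc : ‖-conj z - w0‖ ≤ r
        · -- the reflection lies in the cluster
          have t3' : (θ * conj R ^ 2).re ≤ 0 := by
            have e : θ * conj R ^ 2 = conj (conj θ * R ^ 2) := by
              rw [map_mul, Complex.conj_conj, map_pow]
            rw [e, Complex.conj_re]
            have h1 := near_sq hθn hθv' (hgc (-conj z) (hre2 ρ) (hz2 ρ) hrc)
            have h2 : (0 : ℝ) ≤ ‖P0‖ ^ 2 / 2 := by positivity
            linarith
          linarith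
        · have hRs' := hRs (not_le.1 hrc)
          have k4 := hsq ‖R‖ (norm_nonneg _) hRs'
          linarith
      calc (mu ρ : ℝ) * ((2 * (P * conj R)).re + (conj θ * P ^ 2).re + (θ * conj R ^ 2).re)
          ≤ (mu ρ : ℝ) * (8 * (M * (δ * d))) := mul_le_mul_of_nonneg_left k3 (Nat.cast_nonneg _)
        _ = _ := by ring
  have hsumL : Summable (fun ρ : Zt => (mu ρ : ℝ) * (GG h h ((ρ : ℂ) - 1 / 2)).re) := by
    refine Summable.of_norm ?_
    refine Summable.of_nonneg_of_le (fun _ => norm_nonneg _) (fun ρ => ?_) ((hdom.add hdom.refl).mul_left (1 / 2))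
    rw [norm_mul, Real.norm_natCast, Real.norm_eq_abs]
    have h := mul_le_mul_of_nonneg_left ((Complex.abs_re_le_norm _).trans (norm_GG_zero h h ((ρ : ℂ) - 1 / 2)))
      (Nat.cast_nonneg (mu ρ) : (0 : ℝ) ≤ mu ρ)
    calc _ ≤ _ := h
      _ = _ := by ring
  have hs1 := ((zsummable (D := zd (L := L)) w0.im).mul_left (8 * M * δ)).hasSum
  have hs2 := hasSum_ite_eq ρ0 (‖P0‖ ^ 2 / 2)
  have hs3 := hs1.sub hs2
  have hQ : QQ h ≤ 8 * M * δ * Z - ‖P0‖ ^ 2 / 2 := by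
    have h1 := hsumL.hasSum
    have h2 := hasSum_le hterm h1 hs3
    rw [tsum_mul_left] at h2
    exact h2
  exact ⟨h, hHd, hN, hQ⟩

end Pool.Agent.Y23.G.FW
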