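import Pool.Agent.Run7.h833.FW.PDef
import Pool.Agent.Run7.h336.CB.B18
import Pool.Agent.Run7.h336.CB.B20
import Pool.Agent.Run7.h336.FW.Stm2

/-! # The finite form of Weil's criterion in the variable `z` -/

set_option autoImplicit false
set_option linter.unusedSectionVars false

open Complex Filter Topology Set MeasureTheory
open scoped ComplexConjugate

namespace Pool.Agent.Run7.h833.FW.P

open Pool.Agent.Y23.G
open Pool.Agent.Run7.h336.CB.S (F InDom RealZeros inDom_iff)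

theorem port (L : LFun) (hFIN : FW.S_FIN2 (L := L)) (Xi : ℂ → ℂ) {C : ℂ} (hC : C ≠ 0)
    (hX : ∀ z, L.X (1 / 2 + I * z) = C * Xi z) (W : ℝ → (ℝ → ℂ) → ℝ)
    (hW : ∀ (a : ℝ), 0 < a → ∀ f : ℝ → ℂ, InDom a f → W a f = QQ f) : Statement Xi L.m W := by
  have hm1 := m_one (L := L)
  have hm0 : (0 : ℝ) < L.m := by linarith
  have hs : ∀ s : ℂ, L.X s = 0 → Xi (-I * (s - 1 / 2)) = 0 := by
    intro s hs
    have h1 := hX (-I * (s - 1 / 2))
    have e : (1 / 2 + I * (-I * (s - 1 / 2)) : ℂ) = s := by linear_combination (-(s - 1 / 2)) * Complex.I_mul_I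
    rw [e, hs] at h1
    exact (mul_eq_zero.1 h1.symm).resolve_left hC
  have hz : ∀ z : ℂ, Xi z = 0 → L.X (1 / 2 + I * z) = 0 := fun z h => by rw [hX, h, mul_zero]
  have hre : ∀ z : ℂ, (1 / 2 + I * z : ℂ).re - 1 / 2 = -z.im := by
    intro z
    have e : (1 / 2 : ℂ) = ((1 / 2 : ℝ) : ℂ) := by push_cast; rfl
    rw [Complex.add_re, Complex.I_mul_re, e, Complex.ofReal_re]
    ring
  have him : ∀ z : ℂ, (1 / 2 + I * z : ℂ).im = z.re := by
    intro z
    have e : (1 / 2 : ℂ) = ((1 / 2 : ℝ) : ℂ) := by push_cast; rfl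
    rw [Complex.add_im, Complex.I_mul_im, e, Complex.ofReal_im, zero_add]
  have hreg : ∀ η : ℝ, 0 < η → ∃ c A : ℝ, 0 < c ∧ 0 < A ∧ ∀ a : ℝ, A ≤ a → AlmostPositive L.m W η a →
      ∀ z : ℂ, Xi z = 0 → |z.re| ≤ c * Real.exp (2 * a / L.m) →
        |z.im| ≤ Real.exp (-(c * (Real.exp (2 * a / L.m) / a))) := by
    intro η hη
    obtain ⟨c, A, hc, hA, h⟩ := hFIN η hη
    refine ⟨c, A, hc, hA, fun a ha hpos z hz0 hzr => ?_⟩
    have ha0 : 0 < a := lt_of_lt_of_le hA ha
    have h1 := h a ha (fun f hf => by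
      have hf' := (inDom_iff a f).2 hf
      have h2 := hpos f hf'
      rw [hW a ha0 f hf'] at h2
      exact h2) (1 / 2 + I * z) (hz z hz0) (by rw [him]; exact hzr)
    rwa [hre, abs_neg] at h1
  have hRH : RealZeros Xi → ∀ ρ : Zt (D := zd (L := L)), (ρ : ℂ).re = 1 / 2 := by
    intro h ρ
    have h1 := h _ (hs _ ρ.2)
    simp at h1
    linarith
  have hpos : RealZeros Xi → ∀ a : ℝ, 0 < a → ∀ f : ℝ → ℂ, InDom a f → 0 ≤ W a f := by
    intro h a ha f hf
    rw [hW a ha f hf, QQ_eq_SS (hRH h)]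
    exact SS_nonneg f
  refine ⟨hreg, hpos, fun h => ⟨1, one_pos, fun B => ⟨max B 1, le_max_left _ _, fun f hf => ?_⟩⟩, ?_⟩
  · have h1 := hpos h (max B 1) (lt_of_lt_of_le one_pos (le_max_right _ _)) f hf
    have h2 : 0 ≤ Real.exp (-(1 * Real.exp (2 * max B 1 / L.m))) * ∫ x : ℝ, ‖f x‖ ^ 2 :=
      mul_nonneg (Real.exp_pos _).le (integral_nonneg fun x => sq_nonneg _)
    linarith
  · rintro ⟨η, hη, h⟩ z hz0
    obtain ⟨c, A, hc, hA, h1⟩ := hreg η hη
    by_contra hne
    have him0 : 0 < |z.im| := abs_pos.2 hne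
    -- for large `a` the height is reached and the error is smaller than the imaginary part
    have t1 : Tendsto (fun a : ℝ => c * (Real.exp (2 * a / L.m) / a)) atTop atTop :=
      (CB.XA_lim hm0).const_mul_atTop hc
    have e1 : ∀ᶠ a : ℝ in atTop, Real.exp (-(c * (Real.exp (2 * a / L.m) / a))) < |z.im| := by
      have t2 : Tendsto (fun a : ℝ => Real.exp (-(c * (Real.exp (2 * a / L.m) / a)))) atTop (𝓝 0) :=
        Real.tendsto_exp_neg_atTop_nhds_zero.comp t1
      exact t2.eventually (gt_mem_nhds him0)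
    have e2 : ∀ᶠ a : ℝ in atTop, |z.re| ≤ c * Real.exp (2 * a / L.m) := by
      have t3 : Tendsto (fun a : ℝ => c * Real.exp (2 * a / L.m)) atTop atTop := by
        refine Tendsto.const_mul_atTop hc (Real.tendsto_exp_atTop.comp ?_)
        have : (fun a : ℝ => 2 * a / (L.m : ℝ)) = fun a : ℝ => (2 / (L.m : ℝ)) * a := by
          funext a; ring
        rw [this]
        exact tendsto_id.const_mul_atTop (by positivity)
      exact t3.eventually_ge_atTop _
    obtain ⟨B, hB⟩ := eventually_atTop.1 (e1.and e2)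
    obtain ⟨a, ha, hpa⟩ := h (max A B)
    have h2 := hB a ((le_max_right _ _).trans ha)
    have h3 := h1 a ((le_max_left _ _).trans ha) hpa z hz0 h2.2
    linarith [h2.1]

end Pool.Agent.Run7.h833.FW.P
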