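import Pool.Agent.Run7.h336.FW.Stm

/-! # A lower bound for the completed function on the line `Re s = 9/2` -/

set_option autoImplicit false
set_option linter.unusedSectionVars false

open Complex Filter Topology Set MeasureTheory Metric
open scoped ComplexConjugate

open Pool.Agent.W355.UN (seg)

namespace Pool.Agent.Y23.G.FW

theorem t_CLV [L : LFun] : S_CLV := by
  obtain ⟨C, hC, hCb⟩ := XL_bd (L := L)
  have hx0 : 0 < ‖L.X (ctr 0)‖ := norm_pos_iff.2 (ctr_ne 0)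
  set k : ℝ := |Real.log ‖L.X (ctr 0)‖| with hk
  have hk0 : 0 ≤ k := abs_nonneg _
  refine ⟨C + k, by linarith, fun T => ?_⟩
  have hL := one_le_Lg T
  have hT := abs_nonneg T
  have hre : ∀ τ : ℝ, (ctr T + τ * (⟨0, -T⟩ : ℂ)).re = 9 / 2 := fun τ => by
    rw [add_re, Complex.re_ofReal_mul]
    show (9 / 2 : ℝ) + τ * 0 = 9 / 2
    ring
  have him : ∀ τ : ℝ, (ctr T + τ * (⟨0, -T⟩ : ℂ)).im = (1 - τ) * T := fun τ => by
    rw [add_im, Complex.im_ofReal_mul]
    show T + τ * -T = (1 - τ) * T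
    ring
  have e1 : ctr T + (⟨0, -T⟩ : ℂ) = ctr 0 := by
    unfold ctr; apply Complex.ext <;> simp
  have e2 : ‖(⟨0, -T⟩ : ℂ)‖ = |T| := by
    have : (⟨0, -T⟩ : ℂ) = ((-T : ℝ) : ℂ) * I := by apply Complex.ext <;> simp
    rw [this, norm_mul, norm_I, mul_one, Complex.norm_real, Real.norm_eq_abs, abs_neg]
  have hLg : ∀ τ ∈ Icc (0 : ℝ) 1, Lg ((1 - τ) * T) ≤ Lg T := by
    intro τ hτ
    unfold Lg
    apply Real.log_le_log (by positivity)
    rw [abs_mul, abs_of_nonneg (by linarith [hτ.2] : 0 ≤ 1 - τ)]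
    nlinarith [hτ.1, hτ.2]
  have h := seg (F := L.X) (s := ctr T) (v := (⟨0, -T⟩ : ℂ)) (ℓ := 0) (K := C * Lg T) (fun τ _ => Xd _)
    (fun τ hτ => X_ne (by rw [hre]; norm_num)) (fun τ hτ => by
      rw [Complex.ofReal_zero, sub_zero, logDeriv_apply]
      refine (hCb _ (by rw [hre]; norm_num) (by rw [hre]; norm_num)).trans ?_
      rw [him]
      exact mul_le_mul_of_nonneg_left (hLg τ hτ) (by linarith))
  rw [zero_mul, zero_add, e1, e2] at h
  -- the lower bound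
  have hE : 0 < Real.exp (C * Lg T * |T|) := Real.exp_pos _
  have h1 : Real.exp (-k) ≤ ‖L.X (ctr 0)‖ := by
    rw [← Real.le_log_iff_exp_le hx0, hk]
    exact neg_abs_le _
  have h2 : Real.exp (-k) * Real.exp (-(C * Lg T * |T|)) ≤ ‖L.X (ctr T)‖ := by
    rw [Real.exp_neg (C * Lg T * |T|), ← div_eq_mul_inv, div_le_iff₀ hE]
    exact h1.trans h
  refine le_trans ?_ h2
  rw [← Real.exp_add]
  apply Real.exp_le_exp.2
  have h3 : 0 ≤ k * (|T| * Lg T) := by positivity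
  have h4 : k ≤ k * Lg T := by nlinarith
  have h5 : 0 ≤ C * Lg T := by nlinarith
  nlinarith

end Pool.Agent.Y23.G.FW
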