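import Pool.Agent.Run7.h336.CB.SDef

/-!
# The definitions of the finite form of Weil's criterion, in the variable `z`, `s = k/2 + i z`
-/

set_option autoImplicit false

open Complex Filter Topology Set MeasureTheory
open scoped ComplexConjugate

namespace Pool.Agent.Run7.h833.FW.P

open Pool.Agent.Run7.h336.CB.S (F InDom RealZeros)

/-- The form `W a` is bounded below by `-exp (-η exp (2 a / m)) ∫ |f|²` on the functions supported in `[-a, a]`:
it is positive up to an exponentially small multiple of the norm. -/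
def AlmostPositive (m : ℕ) (W : ℝ → (ℝ → ℂ) → ℝ) (η a : ℝ) : Prop :=
  ∀ f : ℝ → ℂ, InDom a f → -(Real.exp (-(η * Real.exp (2 * a / m))) * ∫ x : ℝ, ‖f x‖ ^ 2) ≤ W a f

/-- The finite form of Weil's criterion for the function `X` of degree `m` and the forms `W a`. -/
structure Statement (X : ℂ → ℂ) (m : ℕ) (W : ℝ → (ℝ → ℂ) → ℝ) : Prop where
  /-- one value of `a` controls the zeros up to the height `c exp (2 a / m)` -/
  region : ∀ η : ℝ, 0 < η → ∃ c A : ℝ, 0 < c ∧ 0 < A ∧ ∀ a : ℝ, A ≤ a → AlmostPositive m W η a →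
    ∀ z : ℂ, X z = 0 → |z.re| ≤ c * Real.exp (2 * a / m) →
      |z.im| ≤ Real.exp (-(c * (Real.exp (2 * a / m) / a)))
  /-- if all zeros are real, the forms are positive -/
  positive : RealZeros X → ∀ a : ℝ, 0 < a → ∀ f : ℝ → ℂ, InDom a f → 0 ≤ W a f
  /-- arbitrarily large `a` decide -/
  criterion : RealZeros X ↔ ∃ η : ℝ, 0 < η ∧ ∀ B : ℝ, ∃ a : ℝ, B ≤ a ∧ AlmostPositive m W η a

end Pool.Agent.Run7.h833.FW.P
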